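import Pool.Agent.W2helper90.FC.Four

/-!
# Four colours: full height without non-repeating patterns on four vertices
-/

set_option autoImplicit false

namespace Pool.Agent.W2helper90.UN

open Finset Pool.Agent.TH138.NF

/-- Four colours, double exponential growth, and in every set of four vertices two consecutive
triples of the list `yzw`, `xzw`, `xyw`, `xyz` have the same colour. -/
theorem four_limit (j : ℕ) : ∃ c : Finset ℕ → Bool × Bool,
    (∀ S ⊆ range (2 ^ 2 ^ j), S.card = 4 * j + 5 → ¬ Homogeneous 3 c S) ∧
    ∀ x y z w : ℕ, x < y → y < z → z < w → w < 2 ^ 2 ^ j →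
      c {y, z, w} = c {x, z, w} ∨ c {x, z, w} = c {x, y, w} ∨ c {x, y, w} = c {x, y, z} := by
  classical
  obtain ⟨χ, hχ⟩ := base_lower j
  set c := colour (base χ j) (false, false) with hc
  set m := 2 ^ j with hm
  have hcomp : Computes (base χ j) (2 ^ m) c := computes_colour _ _ _
  refine ⟨c, fun S hS hcard hh => hχ S hS hcard (hom_of_homogeneous hcomp hS hh), ?_⟩
  have hcol : ∀ x y z : ℕ, x < y → y < z → z < 2 ^ m → c {x, y, z} =
      (χ (min (hd x y) (hd y z)) (max (hd x y) (hd y z)), decide (hd x y < hd y z)) := by
    intro x y z hxy hyz hz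
    have hsm : StrictMono ![x, y, z] := by
      rw [Fin.strictMono_iff_lt_succ]
      intro l
      fin_cases l
      · exact hxy
      · exact hyz
    have hlt : ∀ i, ![x, y, z] i < 2 ^ m := by
      intro i
      fin_cases i
      · exact (hxy.trans hyz).trans hz
      · exact hyz.trans hz
      · exact hz
    have h1 := hcomp _ hsm hlt
    have h2 := run_base χ j _ hsm hlt
    have h3 : univ.image ![x, y, z] = {x, y, z} := by
      ext a
      simp [Fin.exists_fin_succ, eq_comm]
    rw [h3] at h1
    rw [← h1, h2]
    rfl
  intro x y z w hxy hyz hzw hw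
  rw [hcol y z w hyz hzw hw, hcol x z w (hxy.trans hyz) hzw hw,
    hcol x y w hxy (hyz.trans hzw) hw, hcol x y z hxy hyz (hzw.trans hw),
    hd_max hxy hyz, hd_max hyz hzw]
  rcases le_total (hd x y) (hd y z) with h1 | h1
  · left
    rw [max_eq_right h1]
  · rcases le_total (hd y z) (hd z w) with h2 | h2
    · right; left
      rw [max_eq_left h1, max_eq_right h2]
    · right; right
      rw [max_eq_left h2]

end Pool.Agent.W2helper90.UN
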