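import Pool.Agent.W2helper90.UN.Lift
import Pool.Agent.W2helper90.OA.Asy

/-!
# The asymptotic forms
-/

set_option autoImplicit false

namespace Pool.Agent.W2helper90.UN

open Finset Pool.Agent.TH138.NF Pool.Agent.W2helper90.FC Pool.Agent.W2helper90.OA

theorem Rq_pos {q : ℕ} (hq : 1 ≤ q) {B : ℕ} (hB : 1 ≤ B) (i : ℕ) : 1 ≤ Rq q B i := by
  cases i with
  | zero => exact hB
  | succ i =>
    unfold Rq
    exact Nat.one_le_iff_ne_zero.2 (by positivity)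

theorem Rq_le {q : ℕ} (hq : 1 ≤ q) {B : ℕ} (hB : 1 ≤ B) {x : ℝ} (hx : 1 ≤ x)
    (h0 : (B : ℝ) ≤ (2 : ℝ) ^ x) (i : ℕ) :
    (Rq q B i : ℝ) ≤ tow (i + 1) (Kq q i * x) := by
  induction i with
  | zero =>
    show _ ≤ (2 : ℝ) ^ (_ : ℝ)
    have : ((Kq q 0 : ℕ) : ℝ) * x = x := by simp [Kq]
    rw [show tow 0 (((Kq q 0 : ℕ) : ℝ) * x) = ((Kq q 0 : ℕ) : ℝ) * x from rfl, this]
    exact h0
  | succ i ih =>
    have hC : (1 : ℝ) ≤ Kq q i := by exact_mod_cast Kq_pos q i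
    have hCy : 1 ≤ Kq q i * x := by nlinarith
    set T := Rq q B i with hT
    have hT1 : 1 ≤ T := Rq_pos hq hB i
    have e1 : Rq q B (i + 1) ≤ 2 ^ (2 ^ (q * (i + 2)) * T ^ (i + 2)) := by
      simp only [Rq, ← hT]
      have hq2 : q ≤ 2 ^ q := Nat.lt_two_pow_self.le
      calc (2 * q ^ ((i + 2) * T ^ (i + 1))) ^ T
          ≤ (2 * (2 ^ q) ^ ((i + 2) * T ^ (i + 1))) ^ T := by gcongr
        _ = 2 ^ ((1 + q * ((i + 2) * T ^ (i + 1))) * T) := by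
            rw [← pow_mul, ← pow_succ', ← pow_mul]
            ring_nf
        _ ≤ 2 ^ (2 ^ (q * (i + 2)) * T ^ (i + 2)) := by
            apply Nat.pow_le_pow_right (by norm_num)
            have h3 : 1 ≤ T ^ (i + 1) := Nat.one_le_pow _ _ hT1
            have h4 : q * (i + 2) + 1 ≤ 2 ^ (q * (i + 2)) := Nat.lt_two_pow_self
            calc (1 + q * ((i + 2) * T ^ (i + 1))) * T
                ≤ (T ^ (i + 1) + q * ((i + 2) * T ^ (i + 1))) * T := by gcongr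
              _ = (q * (i + 2) + 1) * T ^ (i + 2) := by ring
              _ ≤ _ := Nat.mul_le_mul_right _ h4
    have e2 : ((2 ^ (q * (i + 2)) * T ^ (i + 2) : ℕ) : ℝ) ≤
        tow (i + 1) ((((q + 1) * (i + 2) : ℕ) : ℝ) * (Kq q i * x)) := by
      rw [Nat.cast_mul, Nat.cast_pow, Nat.cast_pow, Nat.cast_ofNat]
      have h5 : (T : ℝ) ≤ 2 ^ tow i (Kq q i * x) := ih
      have h6 : (T : ℝ) ^ (i + 2) ≤ (2 : ℝ) ^ (((i : ℝ) + 2) * tow i (Kq q i * x)) := by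
        calc (T : ℝ) ^ (i + 2) ≤ (2 ^ tow i (Kq q i * x)) ^ (i + 2) := by gcongr
          _ = _ := by
            rw [← Real.rpow_natCast, ← Real.rpow_mul (by norm_num)]
            push_cast
            ring_nf
      have h7 : (2 : ℝ) ^ (q * (i + 2)) = (2 : ℝ) ^ ((q : ℝ) * ((i : ℝ) + 2)) := by
        rw [← Real.rpow_natCast]
        push_cast
        rfl
      have h8 : 1 ≤ tow i (Kq q i * x) := hCy.trans (le_tow _ _)
      have hi : (0 : ℝ) ≤ i := Nat.cast_nonneg i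
      have hq0 : (0 : ℝ) ≤ q := Nat.cast_nonneg q
      calc (2 : ℝ) ^ (q * (i + 2)) * (T : ℝ) ^ (i + 2)
          ≤ (2 : ℝ) ^ ((q : ℝ) * ((i : ℝ) + 2)) *
            (2 : ℝ) ^ (((i : ℝ) + 2) * tow i (Kq q i * x)) := by
            rw [h7]; gcongr
        _ = (2 : ℝ) ^ ((q : ℝ) * ((i : ℝ) + 2) + ((i : ℝ) + 2) * tow i (Kq q i * x)) := by
            rw [← Real.rpow_add (by norm_num)]
        _ ≤ (2 : ℝ) ^ tow i ((((q + 1) * (i + 2) : ℕ) : ℝ) * (Kq q i * x)) := by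
            apply Real.rpow_le_rpow_of_exponent_le (by norm_num)
            refine le_trans ?_ (mul_tow ((q + 1) * (i + 2)) (Nat.mul_pos (by omega) (by omega))
              i hCy)
            push_cast
            nlinarith [mul_nonneg hq0 (by linarith : (0 : ℝ) ≤ (i : ℝ) + 2)]
        _ = _ := rfl
    have e3 : (Rq q B (i + 1) : ℝ) ≤ (2 : ℝ) ^ ((2 ^ (q * (i + 2)) * T ^ (i + 2) : ℕ) : ℝ) := by
      rw [Real.rpow_natCast]
      exact_mod_cast e1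
    have e4 : ((Kq q (i + 1) : ℕ) : ℝ) * x = (((q + 1) * (i + 2) : ℕ) : ℝ) * (Kq q i * x) := by
      have : Kq q (i + 1) = ((q + 1) * (i + 2)) * Kq q i := rfl
      rw [this]
      push_cast
      ring
    rw [e4]
    refine e3.trans ?_
    show _ ≤ (2 : ℝ) ^ tow (i + 1) _
    exact Real.rpow_le_rpow_of_exponent_le (by norm_num) e2

theorem Ms_le (q k s : ℕ) (hk : 1 ≤ k) : Ms q k s ≤ 2 ^ (k * s * (q + s + 4)) := by
  induction s with
  | zero => simp [Ms]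
  | succ s ih =>
    have h1 : k ≤ 2 ^ k := Nat.lt_two_pow_self.le
    have h2 : q ≤ 2 ^ q := Nat.lt_two_pow_self.le
    simp only [Ms]
    calc k * (k * (2 * Ms q k s) * (q * 2 ^ (s + 1)) ^ k)
        ≤ 2 ^ k * (2 ^ k * (2 * 2 ^ (k * s * (q + s + 4))) * (2 ^ q * 2 ^ (s + 1)) ^ k) := by
          gcongr
      _ = 2 ^ (2 * k + 1 + k * s * (q + s + 4) + (q + (s + 1)) * k) := by
          rw [← pow_add 2 q, ← pow_mul]
          ring
      _ ≤ 2 ^ (k * (s + 1) * (q + (s + 1) + 4)) := by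
          apply Nat.pow_le_pow_right (by norm_num)
          nlinarith [Nat.zero_le (k * s)]

theorem misses_two {κ : Type} {c : Finset ℕ → κ} {W : Finset ℕ} {n : ℕ}
    (h : ∃ T ⊆ W, T.card = n ∧ ∃ i, ∀ x ∈ T, ∀ y ∈ T, x < y → c {x, y} ≠ i) :
    ∃ T ⊆ W, T.card = n ∧ Misses 2 c T := by
  obtain ⟨T, hT, hTc, i, hi⟩ := h
  refine ⟨T, hT, hTc, i, ?_⟩
  intro A hA hAc
  obtain ⟨x, y, hxy, rfl⟩ := card_eq_two.1 hAc
  have hx : x ∈ T := hA (by simp)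
  have hy : y ∈ T := hA (by simp)
  rcases hxy.lt_or_gt with h | h
  · exact hi x hx y hy h
  · rw [pair_comm]
    exact hi y hy x hx h

theorem clog_le {n : ℕ} (hn : 2 ≤ n) : (Nat.clog 2 n : ℝ) ≤ 2 * Real.logb 2 n ∧
    1 ≤ Real.logb 2 (n : ℝ) := by
  have hn0 : (0 : ℝ) < n := by exact_mod_cast (by omega : 0 < n)
  have h1 : 1 ≤ Real.logb 2 (n : ℝ) := by
    rw [Real.le_logb_iff_rpow_le (by norm_num) hn0, Real.rpow_one]
    exact_mod_cast hn
  refine ⟨?_, h1⟩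
  have h2 : 2 ^ (Nat.clog 2 n - 1) < n := Nat.pow_pred_clog_lt_self (by norm_num) (by omega)
  have h3 : ((Nat.clog 2 n - 1 : ℕ) : ℝ) ≤ Real.logb 2 n := by
    rw [Real.le_logb_iff_rpow_le (by norm_num) hn0, Real.rpow_natCast]
    exact_mod_cast h2.le
  have h4 : (Nat.clog 2 n : ℝ) ≤ ((Nat.clog 2 n - 1 : ℕ) : ℝ) + 1 := by
    have : Nat.clog 2 n ≤ (Nat.clog 2 n - 1) + 1 := by omega
    exact_mod_cast this
  linarith

/-- All lifts of all patterns, or a set without one of the colours. -/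
theorem lifts (κ : Type) [Fintype κ] (m : ℕ) : ∃ K : ℝ, 1 ≤ K ∧ ∀ k n N a : ℕ, 1 ≤ k → 2 ≤ n →
    a ≤ m → tow (m + 1) (K * k * Real.logb 2 n ^ 2) ≤ N → ∀ (H : ℕ → ℕ → κ) (c : Finset ℕ → κ),
      HasLift c N m a k H ∨ ∃ T ⊆ range N, T.card = n ∧ Misses (m + 2) c T := by
  classical
  set q := Fintype.card κ with hq
  rcases Nat.eq_zero_or_pos q with hq0 | hq1
  · refine ⟨1, le_rfl, fun k n N a _ _ _ _ H c => ?_⟩
    exact absurd (Fintype.card_pos_iff.2 ⟨c ∅⟩) (by omega)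
  have hqr : (1 : ℝ) ≤ q := by exact_mod_cast hq1
  have hK1 : (1 : ℝ) ≤ Kq q m := by exact_mod_cast Kq_pos q m
  refine ⟨(Kq q m : ℝ) * (14 * (q : ℝ) ^ 2), ?_, fun k n N a hk hn ha hN H c => ?_⟩
  · have h1 : (1 : ℝ) ≤ (q : ℝ) ^ 2 := one_le_pow₀ hqr
    nlinarith
  have hkr : (1 : ℝ) ≤ k := by exact_mod_cast hk
  obtain ⟨hE, hL⟩ := clog_le hn
  set L := Real.logb 2 (n : ℝ) with hLd
  set E := Nat.clog 2 n with hEd
  have hs : n ^ q ≤ 2 ^ (q * E) := by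
    calc n ^ q ≤ (2 ^ E) ^ q := Nat.pow_le_pow_left (Nat.le_pow_clog (by norm_num) n) q
      _ = 2 ^ (q * E) := by rw [← pow_mul, mul_comm]
  have hx1 : (1 : ℝ) ≤ 14 * (q : ℝ) ^ 2 * k * L ^ 2 := by
    have h1 : (1 : ℝ) ≤ (q : ℝ) ^ 2 := one_le_pow₀ hqr
    have h2 : (1 : ℝ) ≤ L ^ 2 := one_le_pow₀ hL
    have h3 : (1 : ℝ) ≤ (q : ℝ) ^ 2 * k := by nlinarith
    have h4 : (1 : ℝ) ≤ (q : ℝ) ^ 2 * k * L ^ 2 := by nlinarith
    linarith
  have hB : (Ms q k (q * E) : ℝ) ≤ (2 : ℝ) ^ (14 * (q : ℝ) ^ 2 * k * L ^ 2) := by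
    have h1 : (Ms q k (q * E) : ℝ) ≤ (2 : ℝ) ^ (k * (q * E) * (q + q * E + 4)) := by
      exact_mod_cast Ms_le q k (q * E) hk
    refine h1.trans ?_
    rw [← Real.rpow_natCast]
    apply Real.rpow_le_rpow_of_exponent_le (by norm_num)
    push_cast
    have hE0 : (0 : ℝ) ≤ E := Nat.cast_nonneg E
    have h2 : (q : ℝ) * E ≤ 2 * (q * L) := by nlinarith
    have h3 : (1 : ℝ) ≤ q * L := by nlinarith
    have h4 : (q : ℝ) + q * E + 4 ≤ 7 * (q * L) := by nlinarith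
    calc (k : ℝ) * (q * E) * (q + q * E + 4) ≤ k * (2 * (q * L)) * (7 * (q * L)) := by gcongr
      _ = _ := by ring
  have hfin := Rq_le hq1 (Ms_pos hq1 hk (q * E)) hx1 hB m
  have he : (Kq q m : ℝ) * (14 * (q : ℝ) ^ 2 * k * L ^ 2) =
      Kq q m * (14 * (q : ℝ) ^ 2) * k * L ^ 2 := by ring
  rw [he] at hfin
  have hNq : Rq q (Ms q k (q * E)) m ≤ N := by exact_mod_cast hfin.trans hN
  refine climb k n (Ms q k (q * E)) ?_ m a ha H N hNq c
  intro H c N hN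
  rcases pairs c k hk H (q * E) n (by omega) hs (range N) (by rwa [card_range]) with h | h
  · exact Or.inl h
  · exact Or.inr (misses_two h)

theorem homogeneous_of_misses {c : Finset ℕ → Bool} {r : ℕ} {T : Finset ℕ} (h : Misses r c T) :
    Homogeneous r c T := by
  obtain ⟨i, hi⟩ := h
  intro A hA B hB hAc hBc
  have h1 := hi A hA hAc
  have h2 := hi B hB hBc
  revert h1 h2
  cases c A <;> cases c B <;> cases i <;> simp

/-- Two-colourings of full height contain all lifts of all large graphs. -/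
theorem universal (m : ℕ) (ε : ℝ) (hε : 0 < ε) : ∃ δ : ℝ, 0 < δ ∧ ∀ k n N a : ℕ, 1 ≤ k → 2 ≤ n →
    (k : ℝ) ≤ δ * n / Real.logb 2 n ^ 2 → a ≤ m → tow (m + 1) (ε * n) ≤ N →
    ∀ c : Finset ℕ → Bool, (∀ S ⊆ range N, S.card = n → ¬ Homogeneous (m + 2) c S) →
      ∀ H : ℕ → ℕ → Bool, HasLift c N m a k H := by
  obtain ⟨K, hK1, hK⟩ := lifts Bool m
  refine ⟨ε / K, by positivity, fun k n N a hk hn hkn ha hN c hc H => ?_⟩
  obtain ⟨-, hL⟩ := clog_le hn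
  have hL2 : 0 < Real.logb 2 (n : ℝ) ^ 2 := by positivity
  have hle : K * k * Real.logb 2 n ^ 2 ≤ ε * n := by
    rw [le_div_iff₀ hL2] at hkn
    calc K * k * Real.logb 2 n ^ 2 = K * (k * Real.logb 2 n ^ 2) := by ring
      _ ≤ K * (ε / K * n) := by gcongr
      _ = ε * n := by field_simp
  rcases hK k n N a hk hn ha ((tow_mono (m + 1) hle).trans hN) H c with h | ⟨T, hT, hTc, hm⟩
  · exact h
  · exact absurd (homogeneous_of_misses hm) (hc T hT hTc)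

end Pool.Agent.W2helper90.UN
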