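import Mathlib

/-!
# Ordered graphs with several colours: a pattern or a large set without one of the colours

The argument of Erdős and Hajnal, for ordered vertices and an arbitrary finite set of colours.
-/

set_option autoImplicit false

namespace Pool.Agent.W2helper90.UN

open Finset

variable {κ : Type} [Fintype κ] [DecidableEq κ]

theorem exists_initial (W : Finset ℕ) (L : ℕ) (h : L ≤ W.card) :
    ∃ A ⊆ W, A.card = L ∧ ∀ x ∈ A, ∀ y ∈ W \ A, x < y := by
  induction L with
  | zero => exact ⟨∅, empty_subset _, rfl, fun x hx => absurd hx (notMem_empty x)⟩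
  | succ L ih =>
    obtain ⟨A, hA, hc, hlt⟩ := ih (by omega)
    have hne : (W \ A).Nonempty := by
      rw [← card_pos, card_sdiff_of_subset hA]
      omega
    have hm := (W \ A).min'_mem hne
    set m := (W \ A).min' hne with hmd
    rw [mem_sdiff] at hm
    refine ⟨insert m A, insert_subset hm.1 hA, by rw [card_insert_of_notMem hm.2, hc], ?_⟩
    intro x hx y hy
    rw [mem_sdiff, mem_insert, not_or] at hy
    have hy' : y ∈ W \ A := mem_sdiff.2 ⟨hy.1, hy.2.2⟩
    rcases mem_insert.1 hx with rfl | hx
    · exact lt_of_le_of_ne ((W \ A).min'_le y hy') (Ne.symm hy.2.1)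
    · exact hlt x hx y hy'

theorem exists_blocks (L k : ℕ) : ∀ W : Finset ℕ, k * L ≤ W.card →
    ∃ V : ℕ → Finset ℕ, (∀ j < k, V j ⊆ W ∧ (V j).card = L) ∧
      ∀ i j, i < j → j < k → ∀ x ∈ V i, ∀ y ∈ V j, x < y := by
  induction k with
  | zero => exact fun W _ => ⟨fun _ => ∅, fun j hj => absurd hj (by omega),
      fun i j _ hj => absurd hj (by omega)⟩
  | succ k ih =>
    intro W hW
    have e : (k + 1) * L = k * L + L := by ring
    obtain ⟨A, hA, hc, hlt⟩ := exists_initial W L (by omega)
    obtain ⟨V, hV, hVlt⟩ := ih (W \ A) (by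
      rw [card_sdiff_of_subset hA]
      omega)
    refine ⟨fun j => if j = 0 then A else V (j - 1), ?_, ?_⟩
    · intro j hj
      by_cases h0 : j = 0
      · simp only [h0, if_true]
        exact ⟨hA, hc⟩
      · simp only [h0, if_false]
        obtain ⟨h1, h2⟩ := hV (j - 1) (by omega)
        exact ⟨h1.trans sdiff_subset, h2⟩
    · intro i j hij hj x hx y hy
      have hj0 : j ≠ 0 := by omega
      simp only [hj0, if_false] at hy
      by_cases hi0 : i = 0
      · simp only [hi0, if_true] at hx
        exact hlt x hx y ((hV (j - 1) (by omega)).1 hy)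
      · simp only [hi0, if_false] at hx
        exact hVlt (i - 1) (j - 1) (by omega) (by omega) x hx y hy

omit [Fintype κ] in
/-- Either the pattern occurs with the `j`-th vertex in the `j`-th block, or there are two large
subsets of two blocks such that one of the colours is rare between them. -/
theorem embed_or_sparse (c : Finset ℕ → κ) (D X : ℕ) (hD : 1 ≤ D) (hX : 1 ≤ X) (k : ℕ) :
    ∀ (H : ℕ → ℕ → κ) (V : ℕ → Finset ℕ), (∀ j < k, k * X * D ^ k ≤ (V j).card) →
      (∃ v : ℕ → ℕ, (∀ j < k, v j ∈ V j) ∧ ∀ i j, i < j → j < k → c {v i, v j} = H i j) ∨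
      ∃ (i j : ℕ) (A B : Finset ℕ) (p : κ), i < j ∧ j < k ∧ A ⊆ V i ∧ B ⊆ V j ∧ X ≤ A.card ∧
        X ≤ B.card ∧ ∀ a ∈ A, D * (B.filter fun b => c {a, b} = p).card < B.card := by
  classical
  induction k with
  | zero => exact fun H V _ => Or.inl ⟨fun _ => 0, fun j hj => absurd hj (by omega),
      fun i j _ hj => absurd hj (by omega)⟩
  | succ k ih =>
    intro H V hV
    have hV0 := hV 0 (by omega)
    have hDk : 1 ≤ D ^ k := Nat.one_le_pow _ _ hD
    by_cases hgood : ∃ a ∈ V 0, ∀ j < k, (V (j + 1)).card ≤
        D * ((V (j + 1)).filter fun b => c {a, b} = H 0 (j + 1)).card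
    · obtain ⟨a, ha, hg⟩ := hgood
      have hV' : ∀ j < k, k * X * D ^ k ≤
          ((V (j + 1)).filter fun b => c {a, b} = H 0 (j + 1)).card := by
        intro j hj
        have h1 := hg j hj
        have h2 := hV (j + 1) (by omega)
        have h3 : (k + 1) * X * D ^ (k + 1) = D * ((k + 1) * X * D ^ k) := by ring
        rw [h3] at h2
        have h4 := Nat.le_of_mul_le_mul_left (h2.trans h1) (by omega)
        refine le_trans ?_ h4
        gcongr
        exact Nat.le_succ k
      rcases ih (fun i j => H (i + 1) (j + 1))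
        (fun j => (V (j + 1)).filter fun b => c {a, b} = H 0 (j + 1)) hV' with
        ⟨v, hv, hvc⟩ | ⟨i, j, A, B, p, hij, hj, hA, hB, h1, h2, h3⟩
      · left
        refine ⟨fun j => if j = 0 then a else v (j - 1), ?_, ?_⟩
        · intro j hj
          by_cases h0 : j = 0
          · simp only [h0, if_true]
            exact ha
          · simp only [h0, if_false]
            have := hv (j - 1) (by omega)
            rw [Nat.sub_add_cancel (by omega)] at this
            exact (mem_filter.1 this).1
        · intro i j hij hj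
          have hj0 : j ≠ 0 := by omega
          simp only [hj0, if_false]
          by_cases hi0 : i = 0
          · subst hi0
            simp only [if_true]
            have := hv (j - 1) (by omega)
            rw [Nat.sub_add_cancel (by omega)] at this
            exact (mem_filter.1 this).2
          · simp only [hi0, if_false]
            have := hvc (i - 1) (j - 1) (by omega) (by omega)
            rw [Nat.sub_add_cancel (by omega), Nat.sub_add_cancel (by omega)] at this
            exact this
      · right
        exact ⟨i + 1, j + 1, A, B, p, by omega, by omega, hA.trans (filter_subset _ _),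
          hB.trans (filter_subset _ _), h1, h2, h3⟩
    · push Not at hgood
      right
      by_contra hcon
      push Not at hcon
      have hsub : V 0 ⊆ (range k).biUnion fun j => (V 0).filter fun a =>
          D * ((V (j + 1)).filter fun b => c {a, b} = H 0 (j + 1)).card < (V (j + 1)).card := by
        intro a ha
        obtain ⟨j, hj, h⟩ := hgood a ha
        rw [mem_biUnion]
        exact ⟨j, mem_range.2 hj, mem_filter.2 ⟨ha, h⟩⟩
      have h1 := card_le_card hsub
      have h2 : ((range k).biUnion fun j => (V 0).filter fun a =>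
          D * ((V (j + 1)).filter fun b => c {a, b} = H 0 (j + 1)).card <
            (V (j + 1)).card).card ≤ (range k).card * (X - 1) := by
        apply card_biUnion_le_card_mul
        intro j hj
        rw [mem_range] at hj
        set A := (V 0).filter fun a => D * ((V (j + 1)).filter fun b =>
          c {a, b} = H 0 (j + 1)).card < (V (j + 1)).card with hAd
        by_contra hlt
        have hX' : X ≤ (V (j + 1)).card := by
          refine le_trans ?_ (hV (j + 1) (by omega))
          have h5 : 1 ≤ D ^ (k + 1) := Nat.one_le_pow _ _ hD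
          calc X = 1 * X * 1 := by ring
            _ ≤ (k + 1) * X * D ^ (k + 1) := by gcongr; omega
        obtain ⟨a, ha, h⟩ := hcon 0 (j + 1) A (V (j + 1)) (H 0 (j + 1)) (by omega) (by omega)
          (filter_subset _ _) Subset.rfl (by omega) hX'
        exact absurd (mem_filter.1 ha).2 (not_lt.2 h)
      rw [card_range] at h2
      have h3 : k * (X - 1) < (k + 1) * X * D ^ (k + 1) := by
        have h5 : 1 ≤ D ^ (k + 1) := Nat.one_le_pow _ _ hD
        calc k * (X - 1) ≤ k * X := by gcongr; omega
          _ < (k + 1) * X := by nlinarith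
          _ ≤ (k + 1) * X * D ^ (k + 1) := Nat.le_mul_of_pos_right _ h5
      omega

/-- the number of vertices in the theorem of Erdős and Hajnal -/
def Ms (q k : ℕ) : ℕ → ℕ
  | 0 => 1
  | s + 1 => k * (k * (2 * Ms q k s) * (q * 2 ^ (s + 1)) ^ k)

theorem Ms_pos {q k : ℕ} (hq : 1 ≤ q) (hk : 1 ≤ k) (s : ℕ) : 1 ≤ Ms q k s := by
  induction s with
  | zero => exact le_rfl
  | succ s ih =>
    unfold Ms
    exact Nat.one_le_iff_ne_zero.2 (by positivity)

/-- the pattern `H` on `k` vertices occurs in `W` -/
def Occurs (c : Finset ℕ → κ) (W : Finset ℕ) (k : ℕ) (H : ℕ → ℕ → κ) : Prop :=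
  ∃ v : ℕ → ℕ, (∀ j < k, v j ∈ W) ∧ (∀ i j, i < j → j < k → v i < v j) ∧
    ∀ i j, i < j → j < k → c {v i, v j} = H i j

omit [Fintype κ] [DecidableEq κ] in
theorem Occurs.mono {c : Finset ℕ → κ} {W W' : Finset ℕ} {k : ℕ} {H : ℕ → ℕ → κ}
    (h : Occurs c W k H) (hW : W ⊆ W') : Occurs c W' k H := by
  obtain ⟨v, h1, h2, h3⟩ := h
  exact ⟨v, fun j hj => hW (h1 j hj), h2, h3⟩

/-- The main step: sets without one of the colours with a large product of the sizes. -/
theorem build (c : Finset ℕ → κ) (k : ℕ) (hk : 1 ≤ k) (H : ℕ → ℕ → κ) (s : ℕ) :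
    ∀ W : Finset ℕ, Ms (Fintype.card κ) k s ≤ W.card → Occurs c W k H ∨
      ∃ S : κ → Finset ℕ, (∀ i, S i ⊆ W ∧ (S i).Nonempty ∧ (S i).card ≤ 2 ^ s ∧
        ∀ x ∈ S i, ∀ y ∈ S i, x < y → c {x, y} ≠ i) ∧ 2 ^ s ≤ ∏ i, (S i).card := by
  classical
  set q := Fintype.card κ with hq
  have hq1 : 1 ≤ q := Fintype.card_pos_iff.2 ⟨c ∅⟩
  induction s with
  | zero =>
    intro W hW
    right
    simp only [Ms] at hW
    obtain ⟨w, hw⟩ := card_pos.1 hW
    refine ⟨fun _ => {w}, fun i => ⟨singleton_subset_iff.2 hw, singleton_nonempty _, by simp, ?_⟩,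
      by simp⟩
    intro x hx y hy hxy
    rw [mem_singleton] at hx hy
    omega
  | succ s ih =>
    intro W hW
    have hMs : 1 ≤ Ms q k s := Ms_pos hq1 hk s
    simp only [Ms] at hW
    obtain ⟨V, hV, hVlt⟩ := exists_blocks _ k W hW
    rcases embed_or_sparse c (q * 2 ^ (s + 1)) (2 * Ms q k s)
      (Nat.mul_pos hq1 (by positivity)) (by omega) k H V (fun j hj => (hV j hj).2.ge) with
      ⟨v, hv, hvc⟩ | ⟨i, j, A, B, p, hij, hj, hA, hB, h1, h2, h3⟩
    · left
      exact ⟨v, fun j hj => (hV j hj).1 (hv j hj),
        fun i j hij hj => hVlt i j hij hj _ (hv i (by omega)) _ (hv j hj), hvc⟩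
    · have hAW : A ⊆ W := hA.trans (hV i (by omega)).1
      have hBW : B ⊆ W := hB.trans (hV j hj).1
      have hAB : ∀ x ∈ A, ∀ y ∈ B, x < y := fun x hx y hy => hVlt i j hij hj x (hA hx) y (hB hy)
      rcases ih A (by omega) with hocc | ⟨SA, hSA, hPA⟩
      · exact Or.inl (hocc.mono hAW)
      set U : Finset ℕ := univ.biUnion SA with hU
      have hUA : U ⊆ A := by
        intro x hx
        obtain ⟨i, -, hi⟩ := mem_biUnion.1 hx
        exact (hSA i).1 hi
      have hUc : U.card ≤ q * 2 ^ s := by
        have := card_biUnion_le_card_mul (univ : Finset κ) SA (2 ^ s) (fun i _ => (hSA i).2.2.1)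
        rwa [card_univ] at this
      set B' := B.filter fun b => ∀ a ∈ U, c {a, b} ≠ p with hB'
      have hBc : B.card ≤ 2 * B'.card := by
        have hsub : B ⊆ B' ∪ U.biUnion fun a => B.filter fun b => c {a, b} = p := by
          intro b hb
          by_cases h : ∀ a ∈ U, c {a, b} ≠ p
          · exact mem_union_left _ (mem_filter.2 ⟨hb, h⟩)
          · push Not at h
            obtain ⟨a, ha, hab⟩ := h
            exact mem_union_right _ (mem_biUnion.2 ⟨a, ha, mem_filter.2 ⟨hb, hab⟩⟩)
        have h4 := (card_le_card hsub).trans (card_union_le _ _)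
        have h5 : (U.biUnion fun a => B.filter fun b => c {a, b} = p).card ≤
            ∑ a ∈ U, (B.filter fun b => c {a, b} = p).card := card_biUnion_le
        have h6 : q * 2 ^ (s + 1) * ∑ a ∈ U, (B.filter fun b => c {a, b} = p).card ≤
            q * 2 ^ s * B.card := by
          rw [mul_sum]
          calc ∑ a ∈ U, q * 2 ^ (s + 1) * (B.filter fun b => c {a, b} = p).card
              ≤ ∑ _a ∈ U, B.card := sum_le_sum fun a ha => (h3 a (hUA ha)).le
            _ = U.card * B.card := by rw [sum_const, smul_eq_mul]
            _ ≤ _ := Nat.mul_le_mul_right _ hUc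
        have h7 : 2 * ∑ a ∈ U, (B.filter fun b => c {a, b} = p).card ≤ B.card := by
          have h8 : q * 2 ^ (s + 1) * ∑ a ∈ U, (B.filter fun b => c {a, b} = p).card =
              q * 2 ^ s * (2 * ∑ a ∈ U, (B.filter fun b => c {a, b} = p).card) := by ring
          rw [h8] at h6
          exact Nat.le_of_mul_le_mul_left h6 (Nat.mul_pos hq1 (by positivity))
        omega
      have hB'B : B' ⊆ B := filter_subset _ _
      rcases ih B' (by omega) with hocc | ⟨SB, hSB, hPB⟩
      · exact Or.inl (hocc.mono (hB'B.trans hBW))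
      right
      have hdisj : Disjoint (SA p) (SB p) := by
        rw [disjoint_left]
        intro x hx hy
        exact (hAB x ((hSA p).1 hx) x (hB'B ((hSB p).1 hy))).ne rfl
      refine ⟨fun i => if i = p then SA p ∪ SB p else
        if (SB i).card ≤ (SA i).card then SA i else SB i, ?_, ?_⟩
      · intro i
        by_cases hip : i = p
        · subst hip
          simp only [if_true]
          refine ⟨union_subset ((hSA i).1.trans hAW) ((hSB i).1.trans (hB'B.trans hBW)),
            (hSA i).2.1.mono subset_union_left, ?_, ?_⟩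
          · rw [card_union_of_disjoint hdisj, pow_succ]
            have := (hSA i).2.2.1
            have := (hSB i).2.2.1
            omega
          · intro x hx y hy hxy
            rw [mem_union] at hx hy
            rcases hx with hx | hx <;> rcases hy with hy | hy
            · exact (hSA i).2.2.2 x hx y hy hxy
            · have h9 := (hSB i).1 hy
              exact (mem_filter.1 h9).2 x (mem_biUnion.2 ⟨i, mem_univ _, hx⟩)
            · have := hAB y ((hSA i).1 hy) x (hB'B ((hSB i).1 hx))
              omega
            · exact (hSB i).2.2.2 x hx y hy hxy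
        · simp only [hip, if_false]
          have hp2 : 2 ^ s ≤ 2 ^ (s + 1) := Nat.pow_le_pow_right (by norm_num) (by omega)
          by_cases hle : (SB i).card ≤ (SA i).card
          · simp only [hle, if_true]
            exact ⟨(hSA i).1.trans hAW, (hSA i).2.1, (hSA i).2.2.1.trans hp2, (hSA i).2.2.2⟩
          · simp only [hle, if_false]
            exact ⟨(hSB i).1.trans (hB'B.trans hBW), (hSB i).2.1, (hSB i).2.2.1.trans hp2,
              (hSB i).2.2.2⟩
      · rw [← mul_prod_erase univ _ (mem_univ p)]
        simp only [if_true]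
        rw [card_union_of_disjoint hdisj, add_mul]
        have hA' : 2 ^ s ≤ (SA p).card * ∏ i ∈ univ.erase p,
            (if i = p then SA p ∪ SB p else
              if (SB i).card ≤ (SA i).card then SA i else SB i).card := by
          refine hPA.trans ?_
          rw [← mul_prod_erase univ _ (mem_univ p)]
          apply Nat.mul_le_mul_left
          apply prod_le_prod' 
          intro i hi
          rw [if_neg (ne_of_mem_erase hi)]
          by_cases hle : (SB i).card ≤ (SA i).card
          · rw [if_pos hle]
          · rw [if_neg hle]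
            omega
        have hB'' : 2 ^ s ≤ (SB p).card * ∏ i ∈ univ.erase p,
            (if i = p then SA p ∪ SB p else
              if (SB i).card ≤ (SA i).card then SA i else SB i).card := by
          refine hPB.trans ?_
          rw [← mul_prod_erase univ _ (mem_univ p)]
          apply Nat.mul_le_mul_left
          apply prod_le_prod'
          intro i hi
          rw [if_neg (ne_of_mem_erase hi)]
          by_cases hle : (SB i).card ≤ (SA i).card
          · rw [if_pos hle]
            exact hle
          · rw [if_neg hle]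
        rw [pow_succ]
        omega

/-- The theorem of Erdős and Hajnal for ordered graphs with several colours. -/
theorem pairs (c : Finset ℕ → κ) (k : ℕ) (hk : 1 ≤ k) (H : ℕ → ℕ → κ) (s n : ℕ)
    (hn : 1 ≤ n) (hs : n ^ Fintype.card κ ≤ 2 ^ s) (W : Finset ℕ)
    (hW : Ms (Fintype.card κ) k s ≤ W.card) : Occurs c W k H ∨
      ∃ T ⊆ W, T.card = n ∧ ∃ i, ∀ x ∈ T, ∀ y ∈ T, x < y → c {x, y} ≠ i := by
  classical
  rcases build c k hk H s W hW with h | ⟨S, hS, hP⟩
  · exact Or.inl h
  · right
    have : ∃ i, n ≤ (S i).card := by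
      by_contra hcon
      push Not at hcon
      have h1 : ∏ i, (S i).card ≤ (n - 1) ^ Fintype.card κ := by
        have := prod_le_pow_card (univ : Finset κ) (fun i => (S i).card) (n - 1)
          (fun i _ => by have := hcon i; omega)
        rwa [card_univ] at this
      have hq1 : Fintype.card κ ≠ 0 := (Fintype.card_pos_iff.2 ⟨c ∅⟩).ne'
      have h2 : (n - 1) ^ Fintype.card κ < n ^ Fintype.card κ :=
        Nat.pow_lt_pow_left (by omega) hq1
      omega
    obtain ⟨i, hi⟩ := this
    obtain ⟨T, hT, hTc⟩ := exists_subset_card_eq hi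
    exact ⟨T, hT.trans (hS i).1, hTc, i, fun x hx y hy => (hS i).2.2.2 x (hT hx) y (hT hy)⟩

end Pool.Agent.W2helper90.UN
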