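import Pool.Agent.W2helper90.UN.Base
import Pool.Agent.W2helper90.FC.Up

/-!
# Lifts of graph patterns to higher uniformities
-/

set_option autoImplicit false

namespace Pool.Agent.W2helper90.UN

open Finset Pool.Agent.W2helper90.FC

/-- The colouring `c` of the `(m + 2)`-subsets of `{0, …, N - 1}` contains the `a`-th lift of the
pattern `H` on `k` vertices: there are vertices `v 0 < ⋯ < v (k + m - 1)` such that the colour of an
`(m + 2)`-set of them depends only on its elements number `a` and `a + 1` (counted from `0`), say
`v x` and `v y`, and is `H (x - a) (y - a)`. -/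
def HasLift {κ : Type} (c : Finset ℕ → κ) (N m a k : ℕ) (H : ℕ → ℕ → κ) : Prop :=
  ∃ v : ℕ → ℕ, (∀ i j, i < j → j < k + m → v i < v j) ∧ (∀ i < k + m, v i < N) ∧
    ∀ S ⊆ range (k + m), S.card = m + 2 → ∀ x ∈ S, ∀ y ∈ S, (S.filter fun z => z < x).card = a →
      (S.filter fun z => z < y).card = a + 1 → c (S.image v) = H (x - a) (y - a)

/-- all sets of size `r` in `T` avoid one of the colours -/
def Misses {κ : Type} (r : ℕ) (c : Finset ℕ → κ) (T : Finset ℕ) : Prop :=
  ∃ i, ∀ A ⊆ T, A.card = r → c A ≠ i

theorem lift_zero {κ : Type} {c : Finset ℕ → κ} {N k : ℕ} {H : ℕ → ℕ → κ}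
    (h : Occurs c (range N) k H) : HasLift c N 0 0 k H := by
  obtain ⟨v, h1, h2, h3⟩ := h
  refine ⟨v, fun i j hij hj => h2 i j hij (by omega), fun i hi => mem_range.1 (h1 i (by omega)),
    ?_⟩
  intro S hS hSc x hx y hy hfx hfy
  have hxy : x < y := by
    by_contra hcon
    push Not at hcon
    have : (S.filter fun z => z < y) ⊆ S.filter fun z => z < x :=
      fun z hz => mem_filter.2 ⟨(mem_filter.1 hz).1, (mem_filter.1 hz).2.trans_le hcon⟩
    have := card_le_card this
    omega
  have hSe : S = {x, y} := by
    symm
    apply eq_of_subset_of_card_le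
    · exact insert_subset hx (singleton_subset_iff.2 hy)
    · rw [card_pair hxy.ne]
      omega
  rw [hSe, image_insert, image_singleton]
  exact h3 x y hxy (by have := mem_range.1 (hS hy); omega)

/-- one more vertex on the right -/
theorem lift_right {κ : Type} {c : Finset ℕ → κ} {N t m a k w : ℕ} {v : ℕ → ℕ} {H : ℕ → ℕ → κ}
    (hw : w < N) (hvm : ∀ i j, i < j → j < t → v i < v j) (hvw : ∀ i < t, v i < w)
    (hcol : ∀ B ⊆ range t, B.card = m + 3 → ∀ j ∈ B, (∀ i ∈ B, i ≤ j) →
        c (B.image v) = c (insert w ((B.erase j).image v)))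
    (ha : a ≤ m) (h : HasLift (fun A => c (insert w (A.image v))) t m a k H) :
    HasLift c N (m + 1) a k H := by
  obtain ⟨u, hu1, hu2, hu3⟩ := h
  have hvN : ∀ i < t, v i < N := fun i hi => (hvw i hi).trans hw
  refine ⟨fun i => if i < k + m then v (u i) else w, ?_, ?_, ?_⟩
  · intro i j hij hj
    have hi : i < k + m := by omega
    simp only [hi, if_true]
    by_cases hj' : j < k + m
    · simp only [hj', if_true]
      exact hvm _ _ (hu1 i j hij hj') (hu2 j hj')
    · simp only [hj', if_false]
      exact hvw _ (hu2 i hi)
  · intro i hi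
    by_cases hi' : i < k + m
    · simp only [hi', if_true]
      exact hvN _ (hu2 i hi')
    · simp only [hi', if_false]
      exact hw
  · intro S hS hSc x hx y hy hfx hfy
    have hne : S.Nonempty := ⟨x, hx⟩
    set j := S.max' hne with hj
    have hjS : j ∈ S := S.max'_mem hne
    have hmax : ∀ i ∈ S, i ≤ j := fun i hi => S.le_max' i hi
    have hfj : (S.filter fun z => z < j).card = m + 2 := by
      have : (S.filter fun z => z < j) = S.erase j := by
        ext z
        rw [mem_filter, mem_erase]
        constructor
        · rintro ⟨h1, h2⟩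
          exact ⟨h2.ne, h1⟩
        · rintro ⟨h1, h2⟩
          exact ⟨h2, lt_of_le_of_ne (hmax z h2) h1⟩
      rw [this, card_erase_of_mem hjS, hSc]
      omega
    have hxj : x ≠ j := by
      rintro rfl
      omega
    have hyj : y ≠ j := by
      intro h
      rw [h] at hfy
      omega
    have hfil : ∀ z ∈ S, z ≠ j → (S.erase j).filter (fun p => p < z) = S.filter fun p => p < z := by
      intro z hz hzj
      ext p
      rw [mem_filter, mem_filter, mem_erase]
      constructor
      · rintro ⟨⟨_, h2⟩, h3⟩
        exact ⟨h2, h3⟩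
      · rintro ⟨h2, h3⟩
        have := hmax z hz
        exact ⟨⟨by omega, h2⟩, h3⟩
    have hE : S.erase j ⊆ range (k + m) := by
      intro z hz
      rw [mem_erase] at hz
      have h1 := hmax z hz.2
      have h2 := mem_range.1 (hS hjS)
      rw [mem_range]
      omega
    have hEc : (S.erase j).card = m + 2 := by
      rw [card_erase_of_mem hjS, hSc]
      omega
    have key := hu3 (S.erase j) hE hEc x (mem_erase.2 ⟨hxj, hx⟩) y (mem_erase.2 ⟨hyj, hy⟩)
      (by rw [hfil x hx hxj]; exact hfx) (by rw [hfil y hy hyj]; exact hfy)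
    simp only at key
    rw [← key]
    have himE : (S.erase j).image (fun i => if i < k + m then v (u i) else w) =
        ((S.erase j).image u).image v := by
      rw [image_image]
      apply image_congr
      intro z hz
      have := mem_range.1 (hE hz)
      simp only [this, if_true, Function.comp]
    by_cases hjk : j < k + m
    · -- the last vertex is not used
      have hinj : ∀ z ∈ S, ∀ z' ∈ S, u z = u z' → z = z' := by
        intro z hz z' hz' h
        have h1 := hmax z hz
        have h2 := hmax z' hz'
        rcases lt_trichotomy z z' with h3 | h3 | h3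
        · exact absurd h (hu1 z z' h3 (by omega)).ne
        · exact h3
        · exact absurd h (hu1 z' z h3 (by omega)).ne'
      have hSim : S.image (fun i => if i < k + m then v (u i) else w) = (S.image u).image v := by
        rw [image_image]
        apply image_congr
        intro z hz
        have := hmax z hz
        have h3 : z < k + m := by omega
        simp only [h3, if_true, Function.comp]
      rw [hSim, hcol (S.image u) ?_ ?_ (u j) (mem_image_of_mem _ hjS) ?_]
      · congr 3
        ext p
        rw [mem_erase, mem_image, mem_image]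
        constructor
        · rintro ⟨h1, z, hz, rfl⟩
          exact ⟨z, mem_erase.2 ⟨fun h => h1 (by rw [h]), hz⟩, rfl⟩
        · rintro ⟨z, hz, rfl⟩
          rw [mem_erase] at hz
          exact ⟨fun h => hz.1 (hinj z hz.2 j hjS h), z, hz.2, rfl⟩
      · intro p hp
        obtain ⟨z, hz, rfl⟩ := mem_image.1 hp
        have := hmax z hz
        exact mem_range.2 (hu2 z (by omega))
      · rw [card_image_of_injOn fun z hz z' hz' h => hinj z hz z' hz' h, hSc]
      · intro p hp
        obtain ⟨z, hz, rfl⟩ := mem_image.1 hp
        rcases (hmax z hz).lt_or_eq with h | h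
        · exact (hu1 z j h hjk).le
        · rw [h]
    · have hSi : S = insert j (S.erase j) := (insert_erase hjS).symm
      conv_lhs => rw [hSi]
      rw [image_insert, himE]
      simp only [hjk, if_false]

/-- reversal of the order -/
theorem lift_rev {κ : Type} {c : Finset ℕ → κ} {N m a k : ℕ} {H : ℕ → ℕ → κ} (ha : a ≤ m)
    (h : HasLift (fun S => c (S.image fun x => N - 1 - x)) N m (m - a) k
      (fun i j => H (k - 1 - j) (k - 1 - i))) : HasLift c N m a k H := by
  obtain ⟨v, h1, h2, h3⟩ := h
  refine ⟨fun i => N - 1 - v (k + m - 1 - i), ?_, ?_, ?_⟩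
  · intro i j hij hj
    have h4 := h1 (k + m - 1 - j) (k + m - 1 - i) (by omega) (by omega)
    have h5 := h2 (k + m - 1 - i) (by omega)
    show N - 1 - v (k + m - 1 - i) < N - 1 - v (k + m - 1 - j)
    omega
  · intro i hi
    have h5 := h2 (k + m - 1 - i) (by omega)
    show N - 1 - v (k + m - 1 - i) < N
    omega
  · intro S hS hSc x hx y hy hfx hfy
    have hlt : ∀ z ∈ S, z < k + m := fun z hz => mem_range.1 (hS hz)
    set ρ : ℕ → ℕ := fun z => k + m - 1 - z with hρ
    have hinj : ∀ z ∈ S, ∀ z' ∈ S, ρ z = ρ z' → z = z' := by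
      intro z hz z' hz' h
      have := hlt z hz
      have := hlt z' hz'
      simp only [hρ] at h
      omega
    have hcount : ∀ z ∈ S, ((S.image ρ).filter fun p => p < ρ z).card =
        m + 2 - 1 - (S.filter fun p => p < z).card := by
      intro z hz
      have e1 : (S.image ρ).filter (fun p => p < ρ z) = (S.filter fun p => z < p).image ρ := by
        ext p
        rw [mem_filter, mem_image, mem_image]
        constructor
        · rintro ⟨⟨q, hq, rfl⟩, h⟩
          refine ⟨q, mem_filter.2 ⟨hq, ?_⟩, rfl⟩
          have := hlt q hq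
          have := hlt z hz
          simp only [hρ] at h
          omega
        · rintro ⟨q, hq, rfl⟩
          rw [mem_filter] at hq
          refine ⟨⟨q, hq.1, rfl⟩, ?_⟩
          have := hlt q hq.1
          have := hlt z hz
          simp only [hρ]
          omega
      rw [e1, card_image_of_injOn fun p hp p' hp' h =>
        hinj p (mem_filter.1 hp).1 p' (mem_filter.1 hp').1 h]
      have e2 : (S.filter fun p => z < p).card + (S.filter fun p => p < z).card + 1 = S.card := by
        have e3 : S = (S.filter fun p => z < p) ∪ ((S.filter fun p => p < z) ∪ {z}) := by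
          ext p
          simp only [mem_union, mem_filter, mem_singleton]
          constructor
          · intro hp
            rcases lt_trichotomy p z with h | h | h
            · exact Or.inr (Or.inl ⟨hp, h⟩)
            · exact Or.inr (Or.inr h)
            · exact Or.inl ⟨hp, h⟩
          · rintro (h | h | h)
            · exact h.1
            · exact h.1
            · rw [h]
              exact hz
        have d1 : Disjoint (S.filter fun p => p < z) {z} := by
          rw [disjoint_singleton_right, mem_filter]
          exact fun h => absurd h.2 (lt_irrefl _)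
        have d2 : Disjoint (S.filter fun p => z < p) ((S.filter fun p => p < z) ∪ {z}) := by
          rw [disjoint_left]
          intro p hp hp'
          rw [mem_union, mem_filter, mem_singleton] at hp'
          rw [mem_filter] at hp
          rcases hp' with h | h <;> omega
        conv_rhs => rw [e3]
        rw [card_union_of_disjoint d2, card_union_of_disjoint d1, card_singleton]
        omega
      omega
    have himg : S.image (fun i => N - 1 - v (k + m - 1 - i)) =
        ((S.image ρ).image v).image fun x => N - 1 - x := by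
      rw [image_image, image_image]
      rfl
    have hle : (S.filter fun z => z < y).card ≤ y := by
      calc (S.filter fun z => z < y).card ≤ (range y).card :=
            card_le_card fun z hz => mem_range.2 (mem_filter.1 hz).2
        _ = y := card_range y
    have hlex : (S.filter fun z => z < x).card ≤ x := by
      calc (S.filter fun z => z < x).card ≤ (range x).card :=
            card_le_card fun z hz => mem_range.2 (mem_filter.1 hz).2
        _ = x := card_range x
    have hSρ : S.image ρ ⊆ range (k + m) := by
      intro p hp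
      obtain ⟨z, hz, rfl⟩ := mem_image.1 hp
      have := hlt z hz
      rw [mem_range]
      simp only [hρ]
      omega
    have key := h3 (S.image ρ) hSρ
      (by rw [card_image_of_injOn fun z hz z' hz' h => hinj z hz z' hz' h, hSc])
      (ρ y) (mem_image_of_mem _ hy) (ρ x) (mem_image_of_mem _ hx)
      (by rw [hcount y hy]; omega) (by rw [hcount x hx]; omega)
    simp only at key
    rw [himg, key]
    have hxl := hlt x hx
    have hyl := hlt y hy
    -- the elements of the image are large enough
    have hρy : (S.image ρ).filter (fun p => p < ρ y) ⊆ range (ρ y) := fun p hp =>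
      mem_range.2 (mem_filter.1 hp).2
    have h6 := card_le_card hρy
    rw [hcount y hy, card_range] at h6
    have hρx : (S.image ρ).filter (fun p => p < ρ x) ⊆ range (ρ x) := fun p hp =>
      mem_range.2 (mem_filter.1 hp).2
    have h7 := card_le_card hρx
    rw [hcount x hx, card_range] at h7
    simp only [hρ] at h6 h7 ⊢
    congr 1 <;> omega

/-- a set missing a colour, reversed -/
theorem misses_rev {κ : Type} {c : Finset ℕ → κ} {N r n : ℕ}
    (h : ∃ T ⊆ range N, T.card = n ∧ Misses r (fun S => c (S.image fun x => N - 1 - x)) T) :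
    ∃ T ⊆ range N, T.card = n ∧ Misses r c T := by
  obtain ⟨T, hT, hTc, i, hi⟩ := h
  have hinj : ∀ z ∈ T, ∀ z' ∈ T, N - 1 - z = N - 1 - z' → z = z' := by
    intro z hz z' hz' h
    have := mem_range.1 (hT hz)
    have := mem_range.1 (hT hz')
    omega
  refine ⟨T.image fun x => N - 1 - x, ?_, ?_, i, ?_⟩
  · intro p hp
    obtain ⟨z, hz, rfl⟩ := mem_image.1 hp
    have := mem_range.1 (hT hz)
    rw [mem_range]
    omega
  · rw [card_image_of_injOn fun z hz z' hz' h => hinj z hz z' hz' h, hTc]
  · intro A hA hAc
    obtain ⟨B, hB, rfl⟩ := Finset.subset_image_iff.1 hA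
    have hBT : B ⊆ T := by exact_mod_cast hB
    apply hi B hBT
    rwa [card_image_of_injOn fun z hz z' hz' h => hinj z (hBT hz) z' (hBT hz') h] at hAc

/-- a set missing a colour, one uniformity higher -/
theorem misses_up {κ : Type} {c : Finset ℕ → κ} {N t r n w : ℕ} {v : ℕ → ℕ}
    (hw : w < N) (hvm : ∀ i j, i < j → j < t → v i < v j) (hvw : ∀ i < t, v i < w)
    (hcol : ∀ B ⊆ range t, B.card = r + 1 → ∀ j ∈ B, (∀ i ∈ B, i ≤ j) →
        c (B.image v) = c (insert w ((B.erase j).image v)))
    (h : ∃ T ⊆ range t, T.card = n ∧ Misses r (fun A => c (insert w (A.image v))) T) :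
    ∃ T ⊆ range N, T.card = n ∧ Misses (r + 1) c T := by
  obtain ⟨T, hT, hTc, i, hi⟩ := h
  have hinj : ∀ z ∈ T, ∀ z' ∈ T, v z = v z' → z = z' := by
    intro z hz z' hz' h
    have h1 := mem_range.1 (hT hz)
    have h2 := mem_range.1 (hT hz')
    rcases lt_trichotomy z z' with h3 | h3 | h3
    · exact absurd h (hvm z z' h3 h2).ne
    · exact h3
    · exact absurd h (hvm z' z h3 h1).ne'
  refine ⟨T.image v, ?_, ?_, i, ?_⟩
  · intro p hp
    obtain ⟨z, hz, rfl⟩ := mem_image.1 hp
    exact mem_range.2 ((hvw z (mem_range.1 (hT hz))).trans hw)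
  · rw [card_image_of_injOn fun z hz z' hz' h => hinj z hz z' hz' h, hTc]
  · intro A hA hAc
    obtain ⟨B, hB, rfl⟩ := Finset.subset_image_iff.1 hA
    have hBT : B ⊆ T := by exact_mod_cast hB
    rw [card_image_of_injOn fun z hz z' hz' h => hinj z (hBT hz) z' (hBT hz') h] at hAc
    have hne : B.Nonempty := card_pos.1 (by omega)
    rw [hcol B (hBT.trans hT) hAc (B.max' hne) (B.max'_mem hne) fun i hi => B.le_max' i hi]
    apply hi (B.erase (B.max' hne)) ((erase_subset _ _).trans hBT)
    rw [card_erase_of_mem (B.max'_mem hne), hAc]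
    rfl

/-- the number of vertices -/
def Rq (q B : ℕ) : ℕ → ℕ
  | 0 => B
  | m + 1 => (2 * q ^ ((m + 2) * Rq q B m ^ (m + 1))) ^ Rq q B m

/-- From pairs to all uniformities. -/
theorem climb {κ : Type} [Fintype κ] [DecidableEq κ] (k n B : ℕ)
    (hbase : ∀ (H : ℕ → ℕ → κ) (c : Finset ℕ → κ) (N : ℕ), B ≤ N →
      Occurs c (range N) k H ∨ ∃ T ⊆ range N, T.card = n ∧ Misses 2 c T) (m : ℕ) :
    ∀ (a : ℕ), a ≤ m → ∀ (H : ℕ → ℕ → κ) (N : ℕ), Rq (Fintype.card κ) B m ≤ N →
      ∀ c : Finset ℕ → κ, HasLift c N m a k H ∨ ∃ T ⊆ range N, T.card = n ∧ Misses (m + 2) c T := by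
  induction m with
  | zero =>
    intro a ha H N hN c
    obtain rfl : a = 0 := by omega
    rcases hbase H c N hN with h | h
    · exact Or.inl (lift_zero h)
    · exact Or.inr h
  | succ m ih =>
    have right : ∀ (a : ℕ), a ≤ m → ∀ (H : ℕ → ℕ → κ) (N : ℕ),
        Rq (Fintype.card κ) B (m + 1) ≤ N → ∀ c : Finset ℕ → κ,
          HasLift c N (m + 1) a k H ∨ ∃ T ⊆ range N, T.card = n ∧ Misses (m + 1 + 2) c T := by
      intro a ha H N hN c
      obtain ⟨v, w, hw, hvm, hvw, hcol⟩ := rado c (m + 1) (Rq (Fintype.card κ) B m) N hN
      rcases ih a ha H _ le_rfl (fun A => c (insert w (A.image v))) with h | h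
      · exact Or.inl (lift_right hw hvm hvw hcol ha h)
      · exact Or.inr (misses_up hw hvm hvw hcol h)
    intro a ha H N hN c
    rcases Nat.lt_or_ge m a with h | h
    · obtain rfl : a = m + 1 := by omega
      rcases right 0 (Nat.zero_le _) (fun i j => H (k - 1 - j) (k - 1 - i)) N hN
        (fun S => c (S.image fun x => N - 1 - x)) with h1 | h1
      · left
        apply lift_rev le_rfl
        rw [Nat.sub_self]
        exact h1
      · exact Or.inr (misses_rev h1)
    · exact right a h H N hN c

end Pool.Agent.W2helper90.UN
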