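import Pool.Agent.W2helper90.UN.Asy
import Pool.Agent.W2helper90.FD.Main

/-!
# Patterns on three vertices, and the number of edges in sets of `r + 1` vertices
-/

set_option autoImplicit false

namespace Pool.Agent.W2helper90.UN

open Finset Pool.Agent.TH138.NF Pool.Agent.W2helper90.FC Pool.Agent.W2helper90.FD

theorem degen (c : Finset ℕ → Bool) (i : Bool) (n : ℕ) (d : ℕ) : ∀ W : Finset ℕ, W.card = d →
    (∀ U ⊆ W, U.Nonempty → ∃ z ∈ U, (U.filter fun x => x ≠ z ∧ c {x, z} = i).card < n) →
    ∃ T ⊆ W, W.card ≤ n * T.card ∧ ∀ x ∈ T, ∀ y ∈ T, x < y → c {x, y} ≠ i := by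
  induction d using Nat.strong_induction_on with
  | _ d ih =>
    intro W hWd hW
    rcases W.eq_empty_or_nonempty with h0 | hne
    · exact ⟨∅, empty_subset _, by simp [h0], fun x hx => absurd hx (notMem_empty x)⟩
    obtain ⟨z, hz, hdeg⟩ := hW W Subset.rfl hne
    set W' := W.filter fun x => x ≠ z ∧ c {x, z} ≠ i with hW'
    have hW'W : W' ⊆ W := filter_subset _ _
    have hsub : W ⊆ insert z (W' ∪ W.filter fun x => x ≠ z ∧ c {x, z} = i) := by
      intro x hx
      rw [mem_insert, mem_union, mem_filter, mem_filter]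
      by_cases h1 : x = z
      · exact Or.inl h1
      · by_cases h2 : c {x, z} = i
        · exact Or.inr (Or.inr ⟨hx, h1, h2⟩)
        · exact Or.inr (Or.inl ⟨hx, h1, h2⟩)
    have hc1 := (card_le_card hsub).trans (card_insert_le _ _)
    have hc2 := card_union_le W' (W.filter fun x => x ≠ z ∧ c {x, z} = i)
    have hlt : W'.card < d := by
      rw [← hWd]
      apply card_lt_card
      refine ⟨hW'W, fun h => ?_⟩
      exact (mem_filter.1 (h hz)).2.1 rfl
    obtain ⟨T, hT, hTc, hTi⟩ := ih _ hlt W' rfl fun U hU hUne => hW U (hU.trans hW'W) hUne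
    have hzT : z ∉ T := fun h => (mem_filter.1 (hT h)).2.1 rfl
    refine ⟨insert z T, insert_subset hz (hT.trans hW'W), ?_, ?_⟩
    · rw [card_insert_of_notMem hzT]
      have : n * (T.card + 1) = n * T.card + n := by ring
      omega
    · intro x hx y hy hxy
      rw [mem_insert] at hx hy
      rcases hx with rfl | hx <;> rcases hy with rfl | hy
      · exact absurd hxy (lt_irrefl _)
      · rw [pair_comm]
        exact (mem_filter.1 (hT hy)).2.2
      · exact (mem_filter.1 (hT hx)).2.2
      · exact hTi x hx y hy hxy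

theorem transitive_case (c : Finset ℕ → Bool) (i : Bool) (n : ℕ) (W : Finset ℕ)
    (hW : n * n ≤ W.card) (hn : 1 ≤ n) (ht : ∀ x ∈ W, ∀ y ∈ W, ∀ z ∈ W, x < y → y < z →
      c {x, y} = i → c {y, z} = i → c {x, z} = i) :
    ∃ T ⊆ W, T.card = n ∧ ∃ j, ∀ x ∈ T, ∀ y ∈ T, x < y → c {x, y} ≠ j := by
  classical
  set F : ℕ → Finset (Finset ℕ) := fun z => W.powerset.filter fun T =>
    z ∈ T ∧ (∀ x ∈ T, x ≤ z) ∧ ∀ x ∈ T, ∀ y ∈ T, x < y → c {x, y} = i with hF
  set f : ℕ → ℕ := fun z => (F z).sup card with hf
  by_cases hbig : ∃ z ∈ W, n ≤ f z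
  · obtain ⟨z, hz, hfz⟩ := hbig
    have hne : (F z).Nonempty := by
      refine ⟨{z}, ?_⟩
      rw [mem_filter, mem_powerset]
      refine ⟨singleton_subset_iff.2 hz, mem_singleton_self z, ?_, ?_⟩
      · intro x hx
        rw [mem_singleton] at hx
        exact hx.le
      · intro x hx y hy hxy
        rw [mem_singleton] at hx hy
        omega
    obtain ⟨T, hT, hTc⟩ := exists_mem_eq_sup (F z) hne card
    rw [mem_filter, mem_powerset] at hT
    have hTn : n ≤ T.card := by
      rw [← hTc]
      exact hfz
    obtain ⟨T', hT', hT'c⟩ := exists_subset_card_eq hTn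
    refine ⟨T', hT'.trans hT.1, hT'c, !i, ?_⟩
    intro x hx y hy hxy
    rw [hT.2.2.2 x (hT' hx) y (hT' hy) hxy]
    cases i <;> simp
  · push Not at hbig
    obtain ⟨t, -, ht'⟩ := exists_le_card_fiber_of_mul_le_card_of_maps_to
      (s := W) (t := range n) (f := f) (n := n) (fun z hz => mem_range.2 (hbig z hz))
      ⟨0, mem_range.2 hn⟩ (by rwa [card_range])
    obtain ⟨T, hT, hTc⟩ := exists_subset_card_eq ht'
    refine ⟨T, hT.trans (filter_subset _ _), hTc, i, ?_⟩
    intro x hx y hy hxy hc
    have hx' := mem_filter.1 (hT hx)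
    have hy' := mem_filter.1 (hT hy)
    have hlt : f x < f y := by
      have hne : (F x).Nonempty := by
        refine ⟨{x}, ?_⟩
        rw [mem_filter, mem_powerset]
        refine ⟨singleton_subset_iff.2 hx'.1, mem_singleton_self x, ?_, ?_⟩
        · intro z hz
          rw [mem_singleton] at hz
          exact hz.le
        · intro z hz w hw hzw
          rw [mem_singleton] at hz hw
          omega
      obtain ⟨S, hS, hSc⟩ := exists_mem_eq_sup (F x) hne card
      rw [mem_filter, mem_powerset] at hS
      obtain ⟨hSW, hxS, hSx, hSi⟩ := hS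
      have hyS : y ∉ S := fun h => by
        have := hSx y h
        omega
      have hmem : insert y S ∈ F y := by
        rw [mem_filter, mem_powerset]
        refine ⟨insert_subset hy'.1 hSW, mem_insert_self _ _, ?_, ?_⟩
        · intro z hz
          rcases mem_insert.1 hz with rfl | hz
          · exact le_rfl
          · exact (hSx z hz).trans hxy.le
        · intro z hz w hw hzw
          rcases mem_insert.1 hz with hz1 | hz1 <;> rcases mem_insert.1 hw with hw1 | hw1
          · omega
          · have := hSx w hw1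
            omega
          · rw [hw1]
            rcases (hSx z hz1).lt_or_eq with h | h
            · exact ht z (hSW hz1) x hx'.1 y hy'.1 h hxy (hSi z hz1 x hxS h) hc
            · rw [h]
              exact hc
          · exact hSi z hz1 w hw1 hzw
      have h1 : (insert y S).card ≤ f y := le_sup (f := card) hmem
      rw [card_insert_of_notMem hyS] at h1
      have h2 : f x = S.card := hSc
      omega
    omega

theorem tri (n : ℕ) (hn : 1 ≤ n) (c : Finset ℕ → Bool) (W : Finset ℕ) (hW : n * n ≤ W.card)
    (H : ℕ → ℕ → Bool) : Occurs c W 3 H ∨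
      ∃ T ⊆ W, T.card = n ∧ ∃ i, ∀ x ∈ T, ∀ y ∈ T, x < y → c {x, y} ≠ i := by
  classical
  by_cases hocc : Occurs c W 3 H
  · exact Or.inl hocc
  right
  have hno : ∀ x ∈ W, ∀ y ∈ W, ∀ z ∈ W, x < y → y < z → c {x, y} = H 0 1 → c {x, z} = H 0 2 →
      c {y, z} = H 1 2 → False := by
    intro x hx y hy z hz hxy hyz h1 h2 h3
    apply hocc
    refine ⟨fun j => if j = 0 then x else if j = 1 then y else z, ?_, ?_, ?_⟩
    · intro j _
      by_cases h0 : j = 0
      · simp only [h0, if_true]; exact hx
      · by_cases h1 : j = 1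
        · simp [h1, hy]
        · simp [h0, h1, hz]
    · intro i j hij hj
      have hi : i = 0 ∨ i = 1 := by omega
      rcases hi with rfl | rfl
      · have hj' : j = 1 ∨ j = 2 := by omega
        rcases hj' with rfl | rfl
        · simpa using hxy
        · simpa using hxy.trans hyz
      · obtain rfl : j = 2 := by omega
        simpa using hyz
    · intro i j hij hj
      have hi : i = 0 ∨ i = 1 := by omega
      rcases hi with rfl | rfl
      · have hj' : j = 1 ∨ j = 2 := by omega
        rcases hj' with rfl | rfl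
        · simpa using h1
        · simpa using h2
      · obtain rfl : j = 2 := by omega
        simpa using h3
  have fromDegen : ∀ i : Bool, (∀ U ⊆ W, U.Nonempty → ∃ z ∈ U,
      (U.filter fun x => x ≠ z ∧ c {x, z} = i).card < n) →
      ∃ T ⊆ W, T.card = n ∧ ∃ i, ∀ x ∈ T, ∀ y ∈ T, x < y → c {x, y} ≠ i := by
    intro i h
    obtain ⟨T, hT, hTc, hTi⟩ := degen c i n _ W rfl h
    have : n ≤ T.card := Nat.le_of_mul_le_mul_left (hW.trans hTc) hn
    obtain ⟨T', hT', hT'c⟩ := exists_subset_card_eq this
    exact ⟨T', hT'.trans hT, hT'c, i, fun x hx y hy => hTi x (hT' hx) y (hT' hy)⟩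
  by_cases hA : H 0 2 = H 1 2
  · by_cases hdeg : ∃ z ∈ W, n ≤ (W.filter fun x => x < z ∧ c {x, z} = H 0 2).card
    · obtain ⟨z, hz, hc⟩ := hdeg
      obtain ⟨T, hT, hTc⟩ := exists_subset_card_eq hc
      refine ⟨T, hT.trans (filter_subset _ _), hTc, H 0 1, ?_⟩
      intro x hx y hy hxy h
      have hx' := mem_filter.1 (hT hx)
      have hy' := mem_filter.1 (hT hy)
      exact hno x hx'.1 y hy'.1 z hz hxy hy'.2.1 h hx'.2.2 (hy'.2.2.trans hA)
    · push Not at hdeg
      apply fromDegen (H 0 2)
      intro U hU hUne
      refine ⟨U.max' hUne, U.max'_mem hUne, ?_⟩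
      refine lt_of_le_of_lt (card_le_card ?_) (hdeg (U.max' hUne) (hU (U.max'_mem hUne)))
      intro x hx
      rw [mem_filter] at hx ⊢
      exact ⟨hU hx.1, lt_of_le_of_ne (U.le_max' x hx.1) hx.2.1, hx.2.2⟩
  · by_cases hB : H 0 1 = H 0 2
    · by_cases hdeg : ∃ z ∈ W, n ≤ (W.filter fun x => z < x ∧ c {x, z} = H 0 1).card
      · obtain ⟨z, hz, hc⟩ := hdeg
        obtain ⟨T, hT, hTc⟩ := exists_subset_card_eq hc
        refine ⟨T, hT.trans (filter_subset _ _), hTc, H 1 2, ?_⟩
        intro x hx y hy hxy h
        have hx' := mem_filter.1 (hT hx)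
        have hy' := mem_filter.1 (hT hy)
        exact hno z hz x hx'.1 y hy'.1 hx'.2.1 hxy (by rw [pair_comm]; exact hx'.2.2)
          (by rw [pair_comm, hy'.2.2, hB]) h
      · push Not at hdeg
        apply fromDegen (H 0 1)
        intro U hU hUne
        refine ⟨U.min' hUne, U.min'_mem hUne, ?_⟩
        refine lt_of_le_of_lt (card_le_card ?_) (hdeg (U.min' hUne) (hU (U.min'_mem hUne)))
        intro x hx
        rw [mem_filter] at hx ⊢
        exact ⟨hU hx.1, lt_of_le_of_ne (U.min'_le x hx.1) (Ne.symm hx.2.1), hx.2.2⟩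
    · apply transitive_case c (H 0 1) n W hW hn
      intro x hx y hy z hz hxy hyz h1 h2
      by_contra h3
      refine hno x hx y hy z hz hxy hyz h1 ?_ ?_
      · revert h3 hB
        cases c {x, z} <;> cases H 0 1 <;> cases H 0 2 <;> simp
      · rw [h2]
        revert hA hB
        cases H 0 1 <;> cases H 0 2 <;> cases H 1 2 <;> simp

theorem Rq_succ (B i : ℕ) : Rq 2 B (i + 1) = Rc (Rq 2 B 1) i := by
  induction i with
  | zero => rfl
  | succ i ih =>
    rw [show Rq 2 B (i + 1 + 1) = (2 * 2 ^ ((i + 1 + 2) * Rq 2 B (i + 1) ^ (i + 1 + 1))) ^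
      Rq 2 B (i + 1) from rfl, ih]
    rfl

/-- Patterns on three vertices: a polynomial bound in the last exponent. -/
theorem three_vertices (i : ℕ) : ∃ K : ℝ, ∀ n N a : ℕ, 1 ≤ n → a ≤ i + 1 →
    tow (i + 1) (K * (n : ℝ) ^ 4) ≤ N → ∀ c : Finset ℕ → Bool,
      (∀ S ⊆ range N, S.card = n → ¬ Homogeneous (i + 3) c S) →
        ∀ H : ℕ → ℕ → Bool, HasLift c N (i + 1) a 3 H := by
  refine ⟨Kr i * 3, fun n N a hn ha hN c hc H => ?_⟩
  have hnr : (1 : ℝ) ≤ n := by exact_mod_cast hn
  have hx : (1 : ℝ) ≤ 3 * (n : ℝ) ^ 4 := by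
    have : (1 : ℝ) ≤ (n : ℝ) ^ 4 := one_le_pow₀ hnr
    linarith
  have hB1 : 1 ≤ n * n := Nat.mul_pos hn hn
  have hB : (Rq 2 (n * n) 1 : ℝ) ≤ (2 : ℝ) ^ (3 * (n : ℝ) ^ 4) := by
    have h1 : Rq 2 (n * n) 1 ≤ 2 ^ (3 * n ^ 4) := by
      simp only [Rq, zero_add, pow_one]
      rw [← pow_succ', ← pow_mul]
      apply Nat.pow_le_pow_right (by norm_num)
      have h2 : n * n ≤ n * n * (n * n) := Nat.le_mul_of_pos_right _ hB1
      calc (2 * (n * n) + 1) * (n * n) = 2 * (n * n * (n * n)) + n * n := by ring
        _ ≤ 2 * (n * n * (n * n)) + n * n * (n * n) := by omega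
        _ = 3 * n ^ 4 := by ring
    have h3 : (Rq 2 (n * n) 1 : ℝ) ≤ (2 : ℝ) ^ (3 * n ^ 4) := by exact_mod_cast h1
    rw [← Real.rpow_natCast] at h3
    push_cast at h3
    exact h3
  have h1 := Rc_le (Rq_pos (by norm_num) hB1 1) hx hB i
  rw [← Rq_succ] at h1
  have he : (Kr i : ℝ) * (3 * (n : ℝ) ^ 4) = Kr i * 3 * (n : ℝ) ^ 4 := by ring
  rw [he] at h1
  have h2 : Rq (Fintype.card Bool) (n * n) (i + 1) ≤ N := by
    rw [Fintype.card_bool]
    exact_mod_cast h1.trans hN
  have hbase : ∀ (H : ℕ → ℕ → Bool) (c : Finset ℕ → Bool) (N : ℕ), n * n ≤ N →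
      Occurs c (range N) 3 H ∨ ∃ T ⊆ range N, T.card = n ∧ Misses 2 c T := by
    intro H c N hN
    rcases tri n hn c (range N) (by rwa [card_range]) H with h | h
    · exact Or.inl h
    · exact Or.inr (misses_two h)
  rcases climb 3 n (n * n) hbase (i + 1) a ha H N h2 c with h | ⟨T, hT, hTc, hm⟩
  · exact h
  · exact absurd (homogeneous_of_misses hm) (hc T hT hTc)

theorem filter_erase_card {K j x : ℕ} (hx : x ≤ K) :
    (((range K).erase j).filter fun z => z < x).card = if j < x then x - 1 else x := by
  have h1 : ((range K).erase j).filter (fun z => z < x) = (range x).erase j := by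
    ext z
    rw [mem_filter, mem_erase, mem_erase, mem_range, mem_range]
    constructor
    · rintro ⟨⟨h1, _⟩, h3⟩
      exact ⟨h1, h3⟩
    · rintro ⟨h1, h3⟩
      exact ⟨⟨h1, by omega⟩, h3⟩
  rw [h1]
  by_cases h : j < x
  · rw [if_pos h, card_erase_of_mem (mem_range.2 h), card_range]
  · rw [if_neg h, erase_eq_of_notMem (fun h' => h (mem_range.1 h')), card_range]

/-- Every number of edges in a set of `m + 3` vertices occurs. -/
theorem edge_counts {c : Finset ℕ → Bool} {N m : ℕ}
    (hl : ∀ a ≤ m, ∀ H : ℕ → ℕ → Bool, HasLift c N m a 3 H) (e : ℕ) (he : e ≤ m + 3) :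
    ∃ T ⊆ range N, T.card = m + 3 ∧
      ((T.powersetCard (m + 2)).filter fun A => c A = true).card = e := by
  classical
  -- reduction to a count of indices
  have main : ∀ a ≤ m, ∀ h01 h02 h12 : Bool,
      ((range (m + 3)).filter fun j => (if j ≤ a then h12 else if j = a + 1 then h02 else h01) =
        true).card = e → ∃ T ⊆ range N, T.card = m + 3 ∧
      ((T.powersetCard (m + 2)).filter fun A => c A = true).card = e := by
    intro a ha h01 h02 h12 hcount
    obtain ⟨v, hv1, hv2, hv3⟩ := hl a ha fun i j => if i = 0 then (if j = 1 then h01 else h02)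
      else h12
    have hinj : ∀ z ∈ range (m + 3), ∀ z' ∈ range (m + 3), v z = v z' → z = z' := by
      intro z hz z' hz' h
      rw [mem_range] at hz hz'
      rcases lt_trichotomy z z' with h3 | h3 | h3
      · exact absurd h (hv1 z z' h3 (by omega)).ne
      · exact h3
      · exact absurd h (hv1 z' z h3 (by omega)).ne'
    have hinj' : Set.InjOn v (range (m + 3)) := fun z hz z' hz' h => hinj z hz z' hz' h
    have hcol : ∀ j ∈ range (m + 3), c (((range (m + 3)).erase j).image v) =
        if j ≤ a then h12 else if j = a + 1 then h02 else h01 := by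
      intro j hj
      have hcard : ((range (m + 3)).erase j).card = m + 2 := by
        rw [card_erase_of_mem hj, card_range]
        rfl
      have hsub : (range (m + 3)).erase j ⊆ range (3 + m) := by
        rw [add_comm 3 m]
        exact erase_subset _ _
      by_cases h1 : j ≤ a
      · have := hv3 _ hsub hcard (a + 1) (mem_erase.2 ⟨by omega, mem_range.2 (by omega)⟩)
          (a + 2) (mem_erase.2 ⟨by omega, mem_range.2 (by omega)⟩)
          (by rw [filter_erase_card (by omega), if_pos (by omega)]; rfl)
          (by rw [filter_erase_card (by omega), if_pos (by omega)]; rfl)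
        rw [this, if_pos h1]
        have e1 : a + 1 - a = 1 := by omega
        simp [e1]
      · by_cases h2 : j = a + 1
        · have := hv3 _ hsub hcard a (mem_erase.2 ⟨by omega, mem_range.2 (by omega)⟩)
            (a + 2) (mem_erase.2 ⟨by omega, mem_range.2 (by omega)⟩)
            (by rw [filter_erase_card (by omega), if_neg (by omega)])
            (by rw [filter_erase_card (by omega), if_pos (by omega)]; rfl)
          rw [this, if_neg h1, if_pos h2]
          have e1 : a + 2 - a = 2 := by omega
          simp [e1]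
        · have := hv3 _ hsub hcard a (mem_erase.2 ⟨by omega, mem_range.2 (by omega)⟩)
            (a + 1) (mem_erase.2 ⟨by omega, mem_range.2 (by omega)⟩)
            (by rw [filter_erase_card (by omega), if_neg (by omega)])
            (by rw [filter_erase_card (by omega), if_neg (by omega)])
          rw [this, if_neg h1, if_neg h2]
          have e1 : a + 1 - a = 1 := by omega
          simp [e1]
    refine ⟨(range (m + 3)).image v, ?_, ?_, ?_⟩
    · intro p hp
      obtain ⟨z, hz, rfl⟩ := mem_image.1 hp
      exact mem_range.2 (hv2 z (by have := mem_range.1 hz; omega))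
    · rw [card_image_of_injOn hinj', card_range]
    · rw [← hcount]
      symm
      apply card_bij fun j _ => ((range (m + 3)).erase j).image v
      · intro j hj
        rw [mem_filter] at hj
        rw [mem_filter, mem_powersetCard]
        refine ⟨⟨image_subset_image (erase_subset _ _), ?_⟩, ?_⟩
        · rw [card_image_of_injOn (hinj'.mono (by exact_mod_cast erase_subset _ _)),
            card_erase_of_mem hj.1, card_range]
          rfl
        · rw [hcol j hj.1]
          exact hj.2
      · intro j hj j' hj' h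
        rw [mem_filter] at hj hj'
        by_contra hne
        have h1 : v j' ∈ ((range (m + 3)).erase j).image v :=
          mem_image_of_mem _ (mem_erase.2 ⟨fun h => hne h.symm, hj'.1⟩)
        rw [h, mem_image] at h1
        obtain ⟨z, hz, hzv⟩ := h1
        rw [mem_erase] at hz
        exact hz.1 (hinj z hz.2 j' hj'.1 hzv)
      · intro A hA
        rw [mem_filter, mem_powersetCard] at hA
        obtain ⟨⟨hA1, hA2⟩, hA3⟩ := hA
        obtain ⟨S, hS, rfl⟩ := Finset.subset_image_iff.1 hA1
        have hS' : S ⊆ range (m + 3) := by exact_mod_cast hS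
        rw [card_image_of_injOn (hinj'.mono (by exact_mod_cast hS'))] at hA2
        have h1 : (range (m + 3) \ S).card = 1 := by
          rw [card_sdiff_of_subset hS', card_range, hA2]
          omega
        obtain ⟨j, hj⟩ := card_eq_one.1 h1
        have hjm : j ∈ range (m + 3) \ S := by rw [hj]; exact mem_singleton_self j
        have hSj : S = (range (m + 3)).erase j := by
          ext z
          rw [mem_erase]
          constructor
          · intro hz
            refine ⟨?_, hS' hz⟩
            rintro rfl
            exact (mem_sdiff.1 hjm).2 hz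
          · rintro ⟨h1, h2⟩
            by_contra h3
            have : z ∈ range (m + 3) \ S := mem_sdiff.2 ⟨h2, h3⟩
            rw [hj, mem_singleton] at this
            exact h1 this
        refine ⟨j, ?_, by rw [hSj]⟩
        rw [mem_filter]
        refine ⟨(mem_sdiff.1 hjm).1, ?_⟩
        rw [← hcol j (mem_sdiff.1 hjm).1, ← hSj]
        exact hA3
  rcases Nat.eq_zero_or_pos e with he0 | he0
  · apply main 0 (Nat.zero_le _) false false false
    simp [he0]
  rcases Nat.lt_or_ge (m + 1) e with h1 | h1
  · rcases Nat.lt_or_ge (m + 2) e with h2 | h2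
    · apply main 0 (Nat.zero_le _) true true true
      simp only [ite_self, filter_true, card_range]
      omega
    · apply main 0 (Nat.zero_le _) true true false
      have : ((range (m + 3)).filter fun j => (if j ≤ 0 then false else
          if j = 0 + 1 then true else true) = true) = (range (m + 3)).erase 0 := by
        ext j
        rw [mem_filter, mem_erase]
        by_cases h : j ≤ 0
        · simp [h]
          omega
        · simp [h]
          omega
      rw [this, card_erase_of_mem (mem_range.2 (by omega)), card_range]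
      omega
  · apply main (m + 1 - e) (by omega) true false false
    have : ((range (m + 3)).filter fun j => (if j ≤ m + 1 - e then false else
        if j = m + 1 - e + 1 then false else true) = true) = Ico (m + 3 - e) (m + 3) := by
      ext j
      rw [mem_filter, mem_range, mem_Ico]
      by_cases h : j ≤ m + 1 - e
      · simp [h]
        omega
      · by_cases h' : j = m + 1 - e + 1
        · simp [h']
          omega
        · simp [h, h']
          omega
    rw [this, Nat.card_Ico]
    omega

end Pool.Agent.W2helper90.UN
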